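import Mathlib

set_option autoImplicit false

namespace Pool.Agent.Results.MP_93593e_co.Six

open Relation

variable {V : Type}

/-- the underlying undirected simple graph -/
def und (E : Finset (V × V)) : SimpleGraph V := SimpleGraph.fromRel fun a b => (a, b) ∈ E

/-- strongly connected, and no vertex deletion disconnects the underlying graph -/
def SB (E : Finset (V × V)) : Prop :=
  (∀ u v, ReflTransGen (fun a b => (a, b) ∈ E) u v) ∧
    ∀ w : V, ((und E).induce ({w}ᶜ : Set V)).Preconnected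

/-- 2-edge-strongly biconnected (the condition `n ≥ 3` is a hypothesis of the theorem) -/
def TSB [DecidableEq V] (E : Finset (V × V)) : Prop := SB E ∧ ∀ e ∈ E, SB (E.erase e)

def R (F : Finset (V × V)) (a b : V) : Prop := (a, b) ∈ F

def U (F : Finset (V × V)) (w a b : V) : Prop := a ≠ w ∧ b ≠ w ∧ ((a, b) ∈ F ∨ (b, a) ∈ F)

theorem U_symm (F : Finset (V × V)) (w : V) {a b : V} (h : ReflTransGen (U F w) a b) :
    ReflTransGen (U F w) b a := by
  induction h with
  | refl => rfl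
  | tail _ h ih => exact ReflTransGen.head ⟨h.2.1, h.1, h.2.2.symm⟩ ih

theorem mn {r s : V → V → Prop} {a b : V} (h : ReflTransGen r a b) (hrs : ∀ x y, r x y → s x y) :
    ReflTransGen s a b := by
  induction h with
  | refl => rfl
  | tail _ h ih => exact ih.tail (hrs _ _ h)

theorem pre_iff (E : Finset (V × V)) (w : V) : ((und E).induce ({w}ᶜ : Set V)).Preconnected ↔
    ∀ u v, u ≠ w → v ≠ w → ReflTransGen (U E w) u v := by
  constructor
  · intro h u v hu hv
    have hr := h ⟨u, hu⟩ ⟨v, hv⟩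
    rw [SimpleGraph.reachable_iff_reflTransGen] at hr
    have key : ∀ z : ({w}ᶜ : Set V), ReflTransGen ((und E).induce ({w}ᶜ : Set V)).Adj ⟨u, hu⟩ z →
        ReflTransGen (U E w) u z.1 := by
      intro z hz
      induction hz with
      | refl => rfl
      | @tail a b _ hab ih =>
        have h' : (und E).Adj a.1 b.1 := hab
        exact ih.tail ⟨a.2, b.2, ((SimpleGraph.fromRel_adj _ _ _).1 h').2⟩
    exact key _ hr
  · rintro h ⟨u, hu⟩ ⟨v, hv⟩
    have hr := h u v hu hv
    induction hr with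
    | refl => rfl
    | @tail b c _ hbc ih =>
      by_cases e : b = c
      · subst e; exact ih hv
      · have h' : (und E).Adj b c :=
          (SimpleGraph.fromRel_adj (fun a b => (a, b) ∈ E) b c).2 ⟨e, hbc.2.2⟩
        exact (ih hbc.1).trans (SimpleGraph.Adj.reachable h')

structure Good (E : Finset (V × V)) (S : Finset V) (F : Finset (V × V)) : Prop where
  sub : F ⊆ E
  card : F.card + 2 ≤ 2 * S.card
  str : ∀ u ∈ S, ∀ v ∈ S, ReflTransGen (R F) u v
  bic : ∀ w, ∀ u ∈ S, ∀ v ∈ S, u ≠ w → v ≠ w → ReflTransGen (U F w) u v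

theorem seg (r : V → V → Prop) (p : ℕ → V) (i j : ℕ) (hij : i ≤ j)
    (h : ∀ t, i ≤ t → t < j → r (p t) (p (t + 1))) : ReflTransGen r (p i) (p j) := by
  induction j, hij using Nat.le_induction with
  | base => rfl
  | succ j hj ih => exact (ih fun t h1 h2 => h t h1 (by omega)).tail (h j hj (by omega))

theorem toFun (r : V → V → Prop) {y z : V} (h : ReflTransGen r y z) :
    ∃ (k : ℕ) (p : ℕ → V), p 0 = y ∧ p k = z ∧ ∀ t < k, r (p t) (p (t + 1)) := by
  induction h with
  | refl => exact ⟨0, fun _ => y, rfl, rfl, fun t ht => by omega⟩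
  | @tail b c _ hbc ih =>
    obtain ⟨k, p, h0, hk, hp⟩ := ih
    refine ⟨k + 1, fun t => if t ≤ k then p t else c, by simp [h0], by simp, fun t ht => ?_⟩
    by_cases e : t = k
    · subst e; simpa [hk] using hbc
    · have h1 : t ≤ k := by omega
      have h2 : t + 1 ≤ k := by omega
      simpa [h1, h2] using hp t (by omega)

def Ear (E : Finset (V × V)) (S : Finset V) (a b : V) (k : ℕ) (p : ℕ → V) : Prop :=
  1 ≤ k ∧ p 0 = a ∧ p (k + 1) = b ∧ (∀ t ≤ k, (p t, p (t + 1)) ∈ E) ∧ ∀ t, 1 ≤ t → t ≤ k → p t ∉ S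

theorem ear_inj (E : Finset (V × V)) (S : Finset V) (a b : V) (h : ∃ k p, Ear E S a b k p) :
    ∃ k p, Ear E S a b k p ∧ ∀ i j, 1 ≤ i → i < j → j ≤ k → p i ≠ p j := by
  classical
  obtain ⟨p, hp⟩ := Nat.find_spec h
  refine ⟨_, p, hp, fun i j hi hij hj e => ?_⟩
  set k := Nat.find h with hk
  obtain ⟨h1, h0, hb, hE, hS⟩ := hp
  refine Nat.find_min h (m := k - (j - i)) (by omega)
    ⟨fun t => if t ≤ i then p t else p (t + (j - i)), by omega, by simp [h0], ?_, ?_, ?_⟩
  · have : ¬ k - (j - i) + 1 ≤ i := by omega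
    simp only [this, if_false]
    rw [← hb]; congr 1; omega
  · intro t ht
    rcases lt_trichotomy t i with h' | h' | h'
    · simpa [h'.le, Nat.succ_le_of_lt h'] using hE t (by omega)
    · subst h'
      have : t + 1 + (j - t) = j + 1 := by omega
      simpa [this, e] using hE j hj
    · have a1 : ¬ t ≤ i := by omega
      have a2 : ¬ t + 1 ≤ i := by omega
      have : t + 1 + (j - i) = t + (j - i) + 1 := by omega
      simpa [a1, a2, this] using hE (t + (j - i)) (by omega)
  · intro t h1 h2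
    by_cases a1 : t ≤ i
    · simpa [a1] using hS t h1 (by omega)
    · simpa [a1] using hS (t + (j - i)) (by omega) (by omega)

theorem extend [DecidableEq V] {E : Finset (V × V)} {S : Finset V} {F : Finset (V × V)}
    (hG : Good E S F) {a b : V} (ha : a ∈ S) (hb : b ∈ S) (hab : a ≠ b ∨ ∀ c ∈ S, c = a)
    (h : ∃ k p, Ear E S a b k p) : ∃ S' F', Good E S' F' ∧ S.card < S'.card := by
  obtain ⟨k, p, ⟨h1, h0, hk, hE, hS⟩, hi⟩ := ear_inj E S a b h
  have hinj : ∀ i j, 1 ≤ i → i ≤ k → 1 ≤ j → j ≤ k → p i = p j → i = j := by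
    intro i j a1 a2 a3 a4 e
    rcases lt_trichotomy i j with h | h | h
    · exact absurd e (hi i j a1 h a4)
    · exact h
    · exact absurd e.symm (hi j i a3 h a2)
  set F' := F ∪ (Finset.range (k + 1)).image fun t => (p t, p (t + 1)) with hF'
  have mF : ∀ t ≤ k, (p t, p (t + 1)) ∈ F' := fun t ht =>
    Finset.mem_union_right _ (Finset.mem_image.2 ⟨t, Finset.mem_range.2 (by omega), rfl⟩)
  have sF : F ⊆ F' := Finset.subset_union_left
  have hc : (S ∪ (Finset.Icc 1 k).image p).card = S.card + k := by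
    rw [Finset.card_union_of_disjoint, Finset.card_image_of_injOn]
    · simp
    · intro i hi j hj e
      simp only [Finset.coe_Icc, Set.mem_Icc] at hi hj
      exact hinj i j hi.1 hi.2 hj.1 hj.2 e
    · rw [Finset.disjoint_right]
      intro x hx
      obtain ⟨t, ht, rfl⟩ := Finset.mem_image.1 hx
      exact hS t (Finset.mem_Icc.1 ht).1 (Finset.mem_Icc.1 ht).2
  have mS : ∀ x ∈ S ∪ (Finset.Icc 1 k).image p, x ∈ S ∨ ∃ t, 1 ≤ t ∧ t ≤ k ∧ p t = x := by
    intro x hx
    rcases Finset.mem_union.1 hx with hx | hx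
    · exact Or.inl hx
    · obtain ⟨t, ht, rfl⟩ := Finset.mem_image.1 hx
      exact Or.inr ⟨t, (Finset.mem_Icc.1 ht).1, (Finset.mem_Icc.1 ht).2, rfl⟩
  refine ⟨S ∪ (Finset.Icc 1 k).image p, F', ⟨?_, ?_, ?_, ?_⟩, by omega⟩
  · refine Finset.union_subset hG.sub fun e he => ?_
    obtain ⟨t, ht, rfl⟩ := Finset.mem_image.1 he
    exact hE t (by have := Finset.mem_range.1 ht; omega)
  · have b1 := Finset.card_union_le F ((Finset.range (k + 1)).image fun t => (p t, p (t + 1)))
    have b2 : ((Finset.range (k + 1)).image fun t => (p t, p (t + 1))).card ≤ k + 1 :=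
      Finset.card_image_le.trans (by simp)
    have := hG.card
    rw [← hF'] at b1
    omega
  · have old : ∀ u ∈ S, ∀ v ∈ S, ReflTransGen (R F') u v := fun u hu v hv =>
      mn (hG.str u hu v hv) fun x y h => sF h
    intro u hu v hv
    have t1 : ReflTransGen (R F') u b := by
      rcases mS u hu with hu | ⟨t, c1, c2, rfl⟩
      · exact old u hu b hb
      · rw [← hk]; exact seg _ p t (k + 1) (by omega) fun s _ hs => mF s (by omega)
    have t2 : ReflTransGen (R F') a v := by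
      rcases mS v hv with hv | ⟨t, c1, c2, rfl⟩
      · exact old a ha v hv
      · rw [← h0]; exact seg _ p 0 t (by omega) fun s _ hs => mF s (by omega)
    exact t1.trans ((old b hb a ha).trans t2)
  · intro w
    have old : ∀ u ∈ S, ∀ v ∈ S, u ≠ w → v ≠ w → ReflTransGen (U F' w) u v := fun u hu v hv c1 c2 =>
      mn (hG.bic w u hu v hv c1 c2) fun x y h => ⟨h.1, h.2.1, h.2.2.imp (fun h => sF h) fun h => sF h⟩
    have sg : ∀ i j, i ≤ j → j ≤ k + 1 → (∀ t, i ≤ t → t ≤ j → p t ≠ w) →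
        ReflTransGen (U F' w) (p i) (p j) := fun i j hij hj hw =>
      seg _ p i j hij fun t c1 c2 => ⟨hw t c1 c2.le, hw _ (by omega) (by omega), Or.inl (mF t (by omega))⟩
    by_cases hw : ∀ c ∈ S, c = w
    · have hwS : w ∈ S := hw a ha ▸ ha
      have base : ∀ x ∈ S ∪ (Finset.Icc 1 k).image p, x ≠ w → ReflTransGen (U F' w) (p 1) x := by
        intro x hx hxw
        rcases mS x hx with hx | ⟨t, c1, c2, rfl⟩
        · exact absurd (hw x hx) hxw
        · exact sg 1 t c1 (by omega) fun s d1 d2 e => hS s d1 (by omega) (e ▸ hwS)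
      exact fun u hu v hv c1 c2 => (U_symm _ _ (base u hu c1)).trans (base v hv c2)
    · have base : ∀ x ∈ S ∪ (Finset.Icc 1 k).image p, x ≠ w →
          ∃ s ∈ S, s ≠ w ∧ ReflTransGen (U F' w) s x := by
        intro x hx hxw
        rcases mS x hx with hx | ⟨t, c1, c2, rfl⟩
        · exact ⟨x, hx, hxw, ReflTransGen.refl⟩
        · by_cases hl : ∀ s, s ≤ t → p s ≠ w
          · exact ⟨a, ha, h0 ▸ hl 0 (by omega), h0 ▸ sg 0 t (by omega) (by omega) fun s _ d => hl s d⟩
          · push Not at hl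
            obtain ⟨s, hs, e⟩ := hl
            have hr : ∀ s', t ≤ s' → s' ≤ k + 1 → p s' ≠ w := by
              intro s' d1 d2 e'
              by_cases s0 : s = 0
              · have aw : a = w := by rw [← h0, ← s0, e]
                by_cases sk : s' = k + 1
                · have bw : b = w := by rw [← hk, ← sk, e']
                  rcases hab with h | h
                  · exact h (aw.trans bw.symm)
                  · exact hw fun c hc => (h c hc).trans aw
                · exact hS s' (by omega) (by omega) (by rw [e', ← aw]; exact ha)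
              · by_cases sk : s' = k + 1
                · exact hS s (by omega) (by omega) (by rw [e, ← e', sk, hk]; exact hb)
                · have := hinj s s' (by omega) (by omega) (by omega) (by omega) (e.trans e'.symm)
                  exact hxw (by rw [← e]; congr 1; omega)
            exact ⟨b, hb, hk ▸ hr (k + 1) (by omega) le_rfl,
              hk ▸ U_symm _ _ (sg t (k + 1) (by omega) le_rfl hr)⟩
      intro u hu v hv c1 c2
      obtain ⟨s, hs, d1, d2⟩ := base u hu c1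
      obtain ⟨s', hs', d1', d2'⟩ := base v hv c2
      exact (U_symm _ _ d2).trans ((old s hs s' hs' d1 d1').trans d2')

theorem grow [DecidableEq V] {E : Finset (V × V)} (hE : SB E) {S : Finset V} {F : Finset (V × V)}
    (hG : Good E S F) (x0 : V) (hx0 : x0 ∉ S) : ∃ S' F', Good E S' F' ∧ S.card < S'.card := by
  obtain ⟨r, hr⟩ : S.Nonempty := Finset.card_pos.1 (by have := hG.card; omega)
  let O : V → V → Prop := fun x y => x ∉ S ∧ y ∉ S ∧ (x, y) ∈ E
  let In : V → V → Prop := fun x a => a ∈ S ∧ ∃ y, y ∉ S ∧ (a, y) ∈ E ∧ ReflTransGen O y x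
  let Out : V → V → Prop := fun x b => b ∈ S ∧ ∃ z, z ∉ S ∧ ReflTransGen O x z ∧ (z, b) ∈ E
  have hIn : ∀ x, x ∉ S → ∃ a, In x a := by
    intro x hx
    have h := hE.1 r x
    induction h with
    | refl => exact absurd hr hx
    | @tail b c _ hbc ih =>
      by_cases hb : b ∈ S
      · exact ⟨b, hb, c, hx, hbc, ReflTransGen.refl⟩
      · obtain ⟨a, ha, y, h1, h2, h3⟩ := ih hb
        exact ⟨a, ha, y, h1, h2, h3.tail ⟨hb, hx, hbc⟩⟩
  have hOut : ∀ x, x ∉ S → ∃ b, Out x b := by
    intro x hx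
    have h := hE.1 x r
    induction h using ReflTransGen.head_induction_on with
    | refl => exact absurd hr hx
    | @head b c hbc _ ih =>
      by_cases hc : c ∈ S
      · exact ⟨c, hc, b, hx, ReflTransGen.refl, hbc⟩
      · obtain ⟨a, ha, y, h1, h2, h3⟩ := ih hc
        exact ⟨a, ha, y, h1, h2.head ⟨hx, hc, hbc⟩, h3⟩
  by_cases hex : ∃ x a b, In x a ∧ Out x b ∧ (a ≠ b ∨ ∀ c ∈ S, c = a)
  · obtain ⟨x, a, b, ⟨ha, y, hy, hay, hyx⟩, ⟨hb, z, hz, hxz, hzb⟩, hab⟩ := hex
    obtain ⟨k, p, h0, hk, hp⟩ := toFun O (hyx.trans hxz)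
    refine extend hG ha hb hab ⟨k + 1, fun t => if t = 0 then a else if t ≤ k + 1 then p (t - 1) else b,
      by omega, by simp, by simp, fun t ht => ?_, fun t h1 h2 => ?_⟩
    · by_cases t0 : t = 0
      · subst t0; simpa [h0] using hay
      · by_cases tk : t = k + 1
        · subst tk; simpa [hk] using hzb
        · have := (hp (t - 1) (by omega)).2.2
          have e : t - 1 + 1 = t := by omega
          have e2 : t ≤ k := by omega
          simpa [t0, ht, e, e2] using this
    · have t0 : t ≠ 0 := by omega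
      simp only [t0, h2, if_true, if_false]
      by_cases tk : t - 1 = k
      · rw [tk, hk]; exact hz
      · exact (hp (t - 1) (by omega)).1
  · exfalso
    push Not at hex
    obtain ⟨a, ha⟩ := hIn x0 hx0
    obtain ⟨b, hb⟩ := hOut x0 hx0
    obtain ⟨rfl, c, hc, hca⟩ := hex x0 a b ha hb
    have hw := (pre_iff E a).1 (hE.2 a) x0 c (fun e => hx0 (e ▸ ha.1)) hca
    have key : ∀ z, ReflTransGen (U E a) x0 z → z ∉ S ∧ In z a ∧ Out z a := by
      intro z hz
      induction hz with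
      | refl => exact ⟨hx0, ha, hb⟩
      | @tail u v _ huv ih =>
        obtain ⟨i1, i2, i3⟩ := ih
        rcases huv.2.2 with h | h
        · have hv : v ∉ S := fun hv =>
            huv.2.1 (hex u a v i2 ⟨hv, u, i1, ReflTransGen.refl, h⟩).1.symm
          obtain ⟨a1, y, y1, y2, y3⟩ := i2
          have j : In v a := ⟨a1, y, y1, y2, y3.tail ⟨i1, hv, h⟩⟩
          obtain ⟨b', hb'⟩ := hOut v hv
          exact ⟨hv, j, (hex v a b' j hb').1 ▸ hb'⟩
        · have hv : v ∉ S := fun hv =>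
            huv.2.1 (hex u v a ⟨hv, u, i1, h, ReflTransGen.refl⟩ i3).1
          obtain ⟨a1, y, y1, y2, y3⟩ := i3
          have j : Out v a := ⟨a1, y, y1, y2.head ⟨hv, i1, h⟩, y3⟩
          obtain ⟨a', ha'⟩ := hIn v hv
          exact ⟨hv, (hex v a' a ha' j).1 ▸ ha', j⟩
    exact (key c hw).1 hc

theorem mn2 {r s : V → V → Prop} {a b : V} (h : ReflTransGen r a b)
    (hrs : ∀ x y, r x y → ReflTransGen s x y) : ReflTransGen s a b := by
  induction h with
  | refl => rfl
  | tail _ h ih => exact ih.trans (hrs _ _ h)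

theorem SB.mono {E F : Finset (V × V)} (h : SB F) (s : F ⊆ E) : SB E := by
  refine ⟨fun u v => mn (h.1 u v) fun x y h => s h, fun w => ?_⟩
  rw [pre_iff]
  exact fun u v hu hv => mn ((pre_iff F w).1 (h.2 w) u v hu hv)
    fun x y h => ⟨h.1, h.2.1, h.2.2.imp (fun h => s h) fun h => s h⟩

theorem exF (n : ℕ) (hn : 0 < n) (E : Finset (Fin n × Fin n)) (hE : SB E) :
    ∃ F ⊆ E, SB F ∧ F.card + 2 ≤ 2 * n := by
  have ex : ∀ m, ∀ S F, Good E S F → n - S.card ≤ m → ∃ F, Good E Finset.univ F := by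
    intro m
    induction m with
    | zero =>
      intro S F hG h
      have : S = Finset.univ := Finset.eq_univ_of_card S (by
        have := Finset.card_le_univ S
        simp only [Fintype.card_fin] at this ⊢
        omega)
      exact ⟨F, this ▸ hG⟩
    | succ m ih =>
      intro S F hG h
      by_cases hS : ∀ x, x ∈ S
      · exact ⟨F, Finset.eq_univ_of_forall hS ▸ hG⟩
      · push Not at hS
        obtain ⟨x, hx⟩ := hS
        obtain ⟨S', F', hG', hlt⟩ := grow hE hG x hx
        exact ih S' F' hG' (by omega)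
  obtain ⟨F, hF⟩ := ex n {⟨0, hn⟩} ∅ ⟨by simp, by simp,
    fun u hu v hv => by rw [Finset.mem_singleton.1 hu, Finset.mem_singleton.1 hv],
    fun w u hu v hv _ _ => by rw [Finset.mem_singleton.1 hu, Finset.mem_singleton.1 hv]⟩ (by omega)
  refine ⟨F, hF.sub, ⟨fun u v => hF.str u (by simp) v (by simp), fun w => ?_⟩, by
    simpa using hF.card⟩
  rw [pre_iff]
  exact fun u v hu hv => hF.bic w u (by simp) v (by simp) hu hv

def Cut {α : Type} (tl hd : α → V) (r : V) (E : Finset α) : Prop :=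
  ∀ X : V → Prop, ¬ X r → ∀ x, X x → ∃ a ∈ E, ¬ X (tl a) ∧ X (hd a)

theorem cut_out {E : Finset (V × V)} (r : V) :
    Cut Prod.fst Prod.snd r E ↔ ∀ v, ReflTransGen (R E) r v := by
  constructor
  · intro h v
    by_contra hv
    obtain ⟨a, ha, h1, h2⟩ := h (fun x => ¬ ReflTransGen (R E) r x) (fun h => h .refl) v hv
    exact h2 ((not_not.1 h1).tail ha)
  · intro h X hr x hx
    have := h x
    induction this with
    | refl => exact absurd hx hr
    | @tail b c _ hbc ih =>
      by_cases hb : X b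
      · exact ih hb
      · exact ⟨(b, c), hbc, hb, hx⟩

theorem cut_in {E : Finset (V × V)} (r : V) :
    Cut Prod.snd Prod.fst r E ↔ ∀ v, ReflTransGen (R E) v r := by
  constructor
  · intro h v
    by_contra hv
    obtain ⟨a, ha, h1, h2⟩ := h (fun x => ¬ ReflTransGen (R E) x r) (fun h => h .refl) v hv
    exact h2 ((not_not.1 h1).head ha)
  · intro h X hr x hx
    have := h x
    induction this using ReflTransGen.head_induction_on with
    | refl => exact absurd hx hr
    | @head b c hbc _ ih =>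
      by_cases hc : X c
      · exact ih hc
      · exact ⟨(b, c), hbc, hc, hx⟩

theorem cut_inj {α : Type} [DecidableEq α] (tl hd : α → V) (r : V) {E F : Finset α} (s : F ⊆ E)
    (hE : ∀ g, Cut tl hd r (E.erase g)) (hF : Cut tl hd r F) {e1 e2 f1 f2 : α}
    (n1 : e1 ∉ F) (n2 : e2 ∉ F) (c1 : ¬ Cut tl hd r ((E.erase e1).erase f1))
    (c2 : ¬ Cut tl hd r ((E.erase e2).erase f2)) (h : hd e1 = hd e2) : e1 = e2 := by
  by_contra hne
  unfold Cut at c1 c2
  push Not at c1 c2
  obtain ⟨X, hX, x, hx, h1⟩ := c1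
  obtain ⟨Y, hY, y, hy, h2⟩ := c2
  simp only [Finset.mem_erase, and_imp] at h1 h2
  obtain ⟨a1, ha1, p1, q1⟩ := hE f1 X hX x hx
  obtain ⟨a2, ha2, p2, q2⟩ := hE f2 Y hY y hy
  rw [Finset.mem_erase] at ha1 ha2
  obtain rfl : a1 = e1 := by
    by_contra hh; exact h1 a1 ha1.1 hh ha1.2 p1 q1
  obtain rfl : a2 = e2 := by
    by_contra hh; exact h2 a2 ha2.1 hh ha2.2 p2 q2
  obtain ⟨g, hg, p3, q3⟩ := hF (fun z => X z ∧ Y z) (fun h => hX h.1) (hd a1) ⟨q1, h ▸ q2⟩
  obtain ⟨k1, hk1, p4, q4⟩ := hE g (fun z => X z ∨ Y z) (fun h => h.elim hX hY) x (Or.inl hx)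
  obtain ⟨k2, hk2, p5, q5⟩ := hE k1 (fun z => X z ∨ Y z) (fun h => h.elim hX hY) x (Or.inl hx)
  rw [Finset.mem_erase] at hk1 hk2
  have g1 : g ≠ a1 := fun e => n1 (e ▸ hg)
  have g2 : g ≠ a2 := fun e => n2 (e ▸ hg)
  have t1 := h1 g
  have t2 := h2 g
  have t3 := h1 k1
  have t4 := h2 k1
  have t5 := h1 k2
  have t6 := h2 k2
  have t7 := h1 a2
  have t8 := h2 a1
  have t9 := s hg
  have q1' : Y (hd a1) := h ▸ q2
  have q2' : X (hd a2) := h ▸ q1
  clear h1 h2 hE hF s n1 n2 hg hX hY hx hy h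
  by_cases b1 : k1 = a1 <;> by_cases b2 : k1 = a2 <;> by_cases b3 : k2 = a1 <;>
    by_cases b4 : k2 = a2 <;> grind

def Chordless [DecidableEq V] (C : Finset (V × V)) : Prop :=
  ∀ e ∈ C, e.1 ≠ e.2 ∧ ∃ w, e.1 ≠ w ∧ e.2 ≠ w ∧ ¬ ReflTransGen (U (C.erase e) w) e.1 e.2

theorem low_deg [DecidableEq V] [Fintype V] {C : Finset (V × V)} (hC : Chordless C)
    (hne : C.Nonempty) : ∃ x, (∃ e ∈ C, e.1 = x ∨ e.2 = x) ∧
      (C.filter fun e => e.1 = x ∨ e.2 = x).card ≤ 2 := by
  classical
  let P : ℕ → Prop := fun k => ∃ p : ℕ → V, (∀ i j, i ≤ k → j ≤ k → p i = p j → i = j) ∧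
    ∀ t < k, (p t, p (t + 1)) ∈ C ∨ (p (t + 1), p t) ∈ C
  have hb : ∀ k, P k → k ≤ Fintype.card V := by
    rintro k ⟨p, hp, -⟩
    have := Finset.card_le_card_of_injOn (s := Finset.range (k + 1)) (t := Finset.univ) p
      (fun _ _ => by simp) (fun i hi j hj e => hp i j
        (by have := Finset.mem_range.1 (Finset.mem_coe.1 hi); omega)
        (by have := Finset.mem_range.1 (Finset.mem_coe.1 hj); omega) e)
    simp at this; omega
  obtain ⟨e0, he0⟩ := hne
  have h1 : P 1 := ⟨fun t => if t = 0 then e0.1 else e0.2, fun i j hi hj e => by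
      have := (hC e0 he0).1
      interval_cases i <;> interval_cases j <;> simp_all,
    fun t ht => by interval_cases t; simpa using Or.inl he0⟩
  set k := Nat.findGreatest P (Fintype.card V) with hk
  have hk1 : 1 ≤ k := Nat.le_findGreatest (hb 1 h1) h1
  obtain ⟨p, hp, hadj⟩ : P k := Nat.findGreatest_spec (hb 1 h1) h1
  have hmax : ¬ P (k + 1) := fun h => Nat.findGreatest_is_greatest (Nat.lt_succ_self k) (hb _ h) h
  have onp : ∀ y, ((p 0, y) ∈ C ∨ (y, p 0) ∈ C) → ∃ i, 1 ≤ i ∧ i ≤ k ∧ p i = y := by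
    intro y hy
    by_contra hcon
    push Not at hcon
    have y0 : p 0 ≠ y := by
      rcases hy with h | h
      · exact (hC _ h).1
      · exact (hC _ h).1.symm
    have hall : ∀ i, i ≤ k → p i ≠ y := fun i hi => by
      rcases Nat.eq_zero_or_pos i with rfl | h
      · exact y0
      · exact hcon i h hi
    refine hmax ⟨fun t => if t = 0 then y else p (t - 1), fun i j hi hj e => ?_, fun t ht => ?_⟩
    · by_cases i0 : i = 0 <;> by_cases j0 : j = 0 <;> simp only [i0, j0, if_true, if_false] at e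
      · omega
      · exact absurd e.symm (hall _ (by omega))
      · exact absurd e (hall _ (by omega))
      · have := hp _ _ (by omega) (by omega) e; omega
    · by_cases t0 : t = 0
      · subst t0; simpa using hy.symm
      · have := hadj (t - 1) (by omega)
        have e : t - 1 + 1 = t := by omega
        simpa [t0, e] using this
  refine ⟨p 0, ?_, ?_⟩
  · rcases hadj 0 hk1 with h | h
    · exact ⟨_, h, Or.inl rfl⟩
    · exact ⟨_, h, Or.inr rfl⟩
  by_contra hcon
  have idx : ∀ e ∈ C.filter fun e => e.1 = p 0 ∨ e.2 = p 0,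
      ∃ i, 1 ≤ i ∧ i ≤ k ∧ (e = (p 0, p i) ∨ e = (p i, p 0)) := by
    rintro ⟨a, b⟩ he
    obtain ⟨h1, h2 | h2⟩ := Finset.mem_filter.1 he
    · obtain rfl : a = p 0 := h2
      obtain ⟨i, a1, a2, rfl⟩ := onp b (Or.inl h1)
      exact ⟨i, a1, a2, Or.inl rfl⟩
    · obtain rfl : b = p 0 := h2
      obtain ⟨i, a1, a2, rfl⟩ := onp a (Or.inr h1)
      exact ⟨i, a1, a2, Or.inr rfl⟩
  have anti : ∀ a b, (a, b) ∈ C → (b, a) ∉ C := by
    intro a b h h'
    obtain ⟨hab, w, w1, w2, hn⟩ := hC _ h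
    exact hn (ReflTransGen.single ⟨w1, w2, Or.inr (Finset.mem_erase.2
      ⟨fun e => hab (congrArg Prod.snd e), h'⟩)⟩)
  have key : ∀ j l, 2 ≤ j → j < l → l ≤ k → ((p 0, p j) ∈ C ∨ (p j, p 0) ∈ C) →
      ((p 0, p l) ∈ C ∨ (p l, p 0) ∈ C) → False := by
    intro j l hj hjl hl h1 h2
    obtain ⟨e, he, hee, w, w1, w2, hn⟩ : ∃ e ∈ C, (e = (p 0, p j) ∨ e = (p j, p 0)) ∧ ∃ w, p 0 ≠ w ∧
        p j ≠ w ∧ ¬ ReflTransGen (U (C.erase e) w) (p 0) (p j) := by
      rcases h1 with h | h
      · obtain ⟨-, w, a, b, c⟩ := hC _ h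
        exact ⟨_, h, Or.inl rfl, w, a, b, c⟩
      · obtain ⟨-, w, a, b, c⟩ := hC _ h
        exact ⟨_, h, Or.inr rfl, w, b, a, fun h => c (U_symm _ _ h)⟩
    have er : ∀ a b, a ≤ k → b ≤ k → ¬ (a = 0 ∧ b = j) → ¬ (a = j ∧ b = 0) →
        (p a, p b) ∈ C → (p a, p b) ∈ C.erase e := by
      intro a b ha hb n1 n2 h
      refine Finset.mem_erase.2 ⟨fun q => ?_, h⟩
      rcases hee with rfl | rfl
      · exact n1 ⟨hp _ _ ha (by omega) (congrArg Prod.fst q), hp _ _ hb (by omega) (congrArg Prod.snd q)⟩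
      · exact n2 ⟨hp _ _ ha (by omega) (congrArg Prod.fst q), hp _ _ hb (by omega) (congrArg Prod.snd q)⟩
    have sg : ∀ a b, a ≤ b → b ≤ k → (∀ t, a ≤ t → t ≤ b → p t ≠ w) →
        ReflTransGen (U (C.erase e) w) (p a) (p b) := fun a b hab hb hw =>
      seg _ p a b hab fun t c1 c2 => ⟨hw t c1 c2.le, hw _ (by omega) (by omega),
        (hadj t (by omega)).imp (er _ _ (by omega) (by omega) (by omega) (by omega))
          (er _ _ (by omega) (by omega) (by omega) (by omega))⟩
    by_cases hl' : ∀ t, t ≤ j → p t ≠ w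
    · exact hn (sg 0 j (by omega) (by omega) fun t _ c => hl' t c)
    · push Not at hl'
      obtain ⟨s, hs, e1⟩ := hl'
      have hr : ∀ t, j ≤ t → t ≤ l → p t ≠ w := fun t c1 c2 e2 => by
        have := hp s t (by omega) (by omega) (e1.trans e2.symm)
        exact w2 (by rw [← e1]; congr 1; omega)
      refine hn (ReflTransGen.head ⟨w1, hr l hjl.le le_rfl, h2.imp
        (er _ _ (by omega) (by omega) (by omega) (by omega))
        (er _ _ (by omega) (by omega) (by omega) (by omega))⟩ (U_symm _ _ (sg j l hjl.le hl hr)))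
  obtain ⟨a, ha, b, hb, c, hc, hab, hac, hbc⟩ := Finset.two_lt_card.1 (not_le.1 hcon)
  obtain ⟨i, i1, i2, i3⟩ := idx a ha
  obtain ⟨j, j1, j2, j3⟩ := idx b hb
  obtain ⟨l, l1, l2, l3⟩ := idx c hc
  have ha' := (Finset.mem_filter.1 ha).1
  have hb' := (Finset.mem_filter.1 hb).1
  have hc' := (Finset.mem_filter.1 hc).1
  have ne : ∀ {a b : V × V} {i j : ℕ}, a ∈ C → b ∈ C → a ≠ b → (a = (p 0, p i) ∨ a = (p i, p 0)) →
      (b = (p 0, p j) ∨ b = (p j, p 0)) → i ≠ j := by
    rintro a b i j ha hb hab (rfl | rfl) (rfl | rfl) rfl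
    exacts [hab rfl, anti _ _ ha hb, anti _ _ ha hb, hab rfl]
  have ad : ∀ {a : V × V} {i : ℕ}, a ∈ C → (a = (p 0, p i) ∨ a = (p i, p 0)) →
      ((p 0, p i) ∈ C ∨ (p i, p 0) ∈ C) := by
    rintro a i ha (rfl | rfl)
    exacts [Or.inl ha, Or.inr ha]
  have n1 := ne ha' hb' hab i3 j3
  have n2 := ne ha' hc' hac i3 l3
  have n3 := ne hb' hc' hbc j3 l3
  have k1 := fun h1 h2 => key i j h1 h2 j2 (ad ha' i3) (ad hb' j3)
  have k2 := fun h1 h2 => key j i h1 h2 i2 (ad hb' j3) (ad ha' i3)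
  have k3 := fun h1 h2 => key i l h1 h2 l2 (ad ha' i3) (ad hc' l3)
  have k4 := fun h1 h2 => key l i h1 h2 i2 (ad hc' l3) (ad ha' i3)
  have k5 := fun h1 h2 => key j l h1 h2 l2 (ad hb' j3) (ad hc' l3)
  have k6 := fun h1 h2 => key l j h1 h2 j2 (ad hc' l3) (ad hb' j3)
  simp only [imp_false, ← not_and] at k1 k2 k3 k4 k5 k6
  omega

theorem chordless_card [DecidableEq V] [Fintype V] (S : Finset V) : ∀ C : Finset (V × V),
    Chordless C → (∀ e ∈ C, e.1 ∈ S ∧ e.2 ∈ S) → C.card ≤ 2 * S.card := by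
  induction S using Finset.strongInduction with
  | H S ih =>
    intro C hC hS
    rcases C.eq_empty_or_nonempty with rfl | hne
    · simp
    obtain ⟨x, ⟨e, he, hx⟩, hd⟩ := low_deg hC hne
    have xS : x ∈ S := by
      rcases hx with rfl | rfl
      exacts [(hS e he).1, (hS e he).2]
    have h1 := ih (S.erase x) (Finset.erase_ssubset xS) (C.filter fun e => ¬ (e.1 = x ∨ e.2 = x))
      (fun a ha => by
        obtain ⟨h1, w, w1, w2, hn⟩ := hC a (Finset.mem_filter.1 ha).1
        have s := Finset.erase_subset_erase a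
          (Finset.filter_subset (fun e : V × V => ¬ (e.1 = x ∨ e.2 = x)) C)
        exact ⟨h1, w, w1, w2, fun h => hn (mn h fun x y h =>
          ⟨h.1, h.2.1, h.2.2.imp (fun h => s h) fun h => s h⟩)⟩)
      (fun a ha => by
        obtain ⟨h1, h2⟩ := Finset.mem_filter.1 ha
        push Not at h2
        exact ⟨Finset.mem_erase.2 ⟨h2.1, (hS a h1).1⟩, Finset.mem_erase.2 ⟨h2.2, (hS a h1).2⟩⟩)
    have h2 := Finset.card_filter_add_card_filter_not (s := C) fun e => e.1 = x ∨ e.2 = x
    have h3 := Finset.card_erase_of_mem xS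
    have h4 := Finset.card_pos.2 ⟨x, xS⟩
    omega

theorem result (n : ℕ) (hn : 3 ≤ n) (E : Finset (Fin n × Fin n)) (hloop : ∀ e ∈ E, e.1 ≠ e.2)
    (hE : TSB E) (hmin : ∀ e ∈ E, ¬ TSB (E.erase e)) : E.card ≤ 6 * n ∧ E.card ≤ 7 * n := by
  classical
  obtain ⟨F, hFE, hF, hc⟩ := exF n (by omega) E hE.1
  have hall : ∀ g, SB (E.erase g) := fun g => by
    by_cases h : g ∈ E
    · exact hE.2 g h
    · rw [Finset.erase_eq_of_notMem h]; exact hE.1
  let r : Fin n := ⟨0, by omega⟩
  let O1 := (E \ F).filter fun e => ∃ f, ¬ Cut Prod.fst Prod.snd r ((E.erase e).erase f)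
  let O2 := (E \ F).filter fun e => ∃ f, ¬ Cut Prod.snd Prod.fst r ((E.erase e).erase f)
  let C := (E \ F).filter fun e => ∃ f ∈ F, ∃ w u v, u ≠ w ∧ v ≠ w ∧
    ¬ ReflTransGen (U ((E.erase e).erase f) w) u v
  have c1 : O1.card ≤ n := by
    have := Finset.card_le_card_of_injOn (s := O1) (t := Finset.univ) Prod.snd (fun _ _ => by simp)
      (fun a ha b hb e => by
        obtain ⟨a1, f1, a2⟩ := Finset.mem_filter.1 (Finset.mem_coe.1 ha)
        obtain ⟨b1, f2, b2⟩ := Finset.mem_filter.1 (Finset.mem_coe.1 hb)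
        exact cut_inj _ _ r hFE (fun g => (cut_out r).2 ((hall g).1 r)) ((cut_out r).2 (hF.1 r))
          (Finset.mem_sdiff.1 a1).2 (Finset.mem_sdiff.1 b1).2 a2 b2 e)
    simpa using this
  have c2 : O2.card ≤ n := by
    have := Finset.card_le_card_of_injOn (s := O2) (t := Finset.univ) Prod.fst (fun _ _ => by simp)
      (fun a ha b hb e => by
        obtain ⟨a1, f1, a2⟩ := Finset.mem_filter.1 (Finset.mem_coe.1 ha)
        obtain ⟨b1, f2, b2⟩ := Finset.mem_filter.1 (Finset.mem_coe.1 hb)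
        exact cut_inj _ _ r hFE (fun g => (cut_in r).2 fun v => (hall g).1 v r)
          ((cut_in r).2 fun v => hF.1 v r)
          (Finset.mem_sdiff.1 a1).2 (Finset.mem_sdiff.1 b1).2 a2 b2 e)
    simpa using this
  have c3 : C.card ≤ 2 * n := by
    have := chordless_card Finset.univ C (fun e he => ?_) (fun _ _ => by simp)
    · simpa using this
    obtain ⟨e1, f, hf, w, u, v, hu, hv, hn⟩ := Finset.mem_filter.1 he
    refine ⟨hloop e (Finset.mem_sdiff.1 e1).1, ?_⟩
    have s : C.erase e ⊆ (E.erase e).erase f := fun a ha => by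
      obtain ⟨a1, a2⟩ := Finset.mem_erase.1 ha
      obtain ⟨a3, a4⟩ := Finset.mem_sdiff.1 (Finset.mem_filter.1 a2).1
      exact Finset.mem_erase.2 ⟨fun q => a4 (q ▸ hf), Finset.mem_erase.2 ⟨a1, a3⟩⟩
    by_contra hcon
    refine hn ?_
    have h0 := (pre_iff _ w).1 ((hall f).2 w) u v hu hv
    refine mn2 h0 fun a b hab => ?_
    have by1 : e.1 ≠ w → e.2 ≠ w → ReflTransGen (U ((E.erase e).erase f) w) e.1 e.2 := fun w1 w2 => by
      by_contra q
      exact hcon ⟨w, w1, w2, fun h => q (mn h fun x y h =>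
        ⟨h.1, h.2.1, h.2.2.imp (fun h => s h) fun h => s h⟩)⟩
    obtain ⟨h1, h2, h3 | h3⟩ := hab
    · by_cases q : (a, b) = e
      · subst q; exact by1 h1 h2
      · rw [Finset.mem_erase] at h3
        exact .single ⟨h1, h2, Or.inl (Finset.mem_erase.2 ⟨h3.1, Finset.mem_erase.2 ⟨q, h3.2⟩⟩)⟩
    · by_cases q : (b, a) = e
      · subst q; exact U_symm _ _ (by1 h2 h1)
      · rw [Finset.mem_erase] at h3
        exact .single ⟨h1, h2, Or.inr (Finset.mem_erase.2 ⟨h3.1, Finset.mem_erase.2 ⟨q, h3.2⟩⟩)⟩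
  have cov : E ⊆ F ∪ O1 ∪ O2 ∪ C := by
    intro e he
    by_contra hcon
    simp only [Finset.mem_union, not_or] at hcon
    obtain ⟨⟨⟨n0, n1⟩, n2⟩, n3⟩ := hcon
    have m : e ∈ E \ F := Finset.mem_sdiff.2 ⟨he, n0⟩
    refine hmin e he ⟨hall e, fun f _ => ?_⟩
    by_cases hf : f ∈ F
    · have o1 : Cut Prod.fst Prod.snd r ((E.erase e).erase f) := by
        by_contra q; exact n1 (Finset.mem_filter.2 ⟨m, f, q⟩)
      have o2 : Cut Prod.snd Prod.fst r ((E.erase e).erase f) := by
        by_contra q; exact n2 (Finset.mem_filter.2 ⟨m, f, q⟩)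
      refine ⟨fun u v => ((cut_in r).1 o2 u).trans ((cut_out r).1 o1 v), fun w => ?_⟩
      rw [pre_iff]
      intro u v hu hv
      by_contra q
      exact n3 (Finset.mem_filter.2 ⟨m, f, hf, w, u, v, hu, hv, q⟩)
    · exact hF.mono fun a ha => Finset.mem_erase.2 ⟨fun q => hf (q ▸ ha),
        Finset.mem_erase.2 ⟨fun q => n0 (q ▸ ha), hFE ha⟩⟩
  have h1 := Finset.card_le_card cov
  have h2 := Finset.card_union_le (F ∪ O1 ∪ O2) C
  have h3 := Finset.card_union_le (F ∪ O1) O2
  have h4 := Finset.card_union_le F O1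
  omega

end Pool.Agent.Results.MP_93593e_co.Six
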